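import Pool.Agent.H6.FIB.TargetsP

/-! Row PKR of fib_modules: the kernel is the radical. -/

set_option autoImplicit false

open FI AMc AMt

namespace Pool.Agent.H94.FIB

/-- finite products of solvable groups -/
theorem pkr_pi {n : ℕ} (K : Fin n → Type) [∀ i, Group (K i)]
    (h : ∀ i, Group.IsSolvable (K i)) : Group.IsSolvable (∀ i, K i) := by
  have h1 : ∀ i, ∃ d, derivedSeries (K i) d = ⊥ := fun i => (h i).solvable
  choose d hd using h1
  refine ⟨⟨∑ i, d i, ?_⟩⟩
  rw [eq_bot_iff]
  intro x hx
  rw [Subgroup.mem_bot]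
  funext i
  have h2 := map_derivedSeries_le_derivedSeries (Pi.evalMonoidHom K i) (∑ i, d i)
  have h3 : x i ∈ derivedSeries (K i) (∑ i, d i) := h2 ⟨x, hx, rfl⟩
  have h4 : derivedSeries (K i) (∑ i, d i) ≤ derivedSeries (K i) (d i) :=
    derivedSeries_antitone _ (Finset.single_le_sum (fun _ _ => Nat.zero_le _) (Finset.mem_univ i))
  have h5 := h4 h3
  rw [hd, Subgroup.mem_bot] at h5
  exact h5

theorem pkr_map {G H : Type} [Group G] [Group H] (f : G →* H) (K : Subgroup G)
    (hK : Group.IsSolvable K) : Group.IsSolvable (K.map f) :=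
  Group.isSolvable_of_surjective (f := f.subgroupMap K) (f.subgroupMap_surjective K)

theorem pf_PKR (h1 : T_SOL) (h2 : T_ALS) : T_PKR := by
  classical
  intro e 𝒜 hC X _ _ hX
  obtain ⟨n, A, iG, iF, hA, f, hf⟩ := hX
  let fi : ∀ i : Fin n, X →* A i := fun i => (Pi.evalMonoidHom A i).comp f
  have hfi : ∀ i x, fi i x = f x i := fun _ _ => rfl
  let R : ∀ i : Fin n, Subgroup (A i) := fun i => (fi i).range
  let J : Type := {i : Fin n // ¬ Group.IsSolvable (R i)}
  have hsub : ∀ j : J, ∃ (A' : Type) (_ : Group A') (_ : Finite A') (g : R j.1 →* A'), 𝒜 A' ∧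
      Function.Surjective g ∧ Group.IsSolvable g.ker := fun j =>
    (hC.sub (A j.1) (hA j.1) (R j.1)).resolve_left j.2
  choose A' iG' iF' g hg1 hg2 hg3 using hsub
  letI : Fintype J := inferInstanceAs (Fintype {i : Fin n // ¬ Group.IsSolvable (R i)})
  let ε : Fin (Fintype.card J) ≃ J := (Fintype.equivFin J).symm
  let pr : ∀ j : J, X →* A' j := fun j => (g j).comp (fi j.1).rangeRestrict
  have hpr : ∀ j, Function.Surjective (pr j) := fun j =>
    (hg2 j).comp (fi j.1).rangeRestrict_surjective
  let f' : X →* (∀ t, A' (ε t)) :=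
    { toFun := fun x t => pr (ε t) x
      map_one' := by
        funext t
        simp
      map_mul' := by
        intro x y
        funext t
        simp }
  have hf' : ∀ x t, f' x t = pr (ε t) x := fun _ _ => rfl
  refine ⟨Fintype.card J, fun t => A' (ε t), fun t => iG' (ε t), fun t => iF' (ε t),
    fun t => hg1 _, f', ?_, fun t => hpr (ε t)⟩
  apply le_antisymm
  · refine (h1 X).2.1 _ inferInstance ?_
    let S : ∀ i : Fin n, Subgroup (A i) := fun i =>
      if h : Group.IsSolvable (R i) then R i else (g ⟨i, h⟩).ker.map (R i).subtype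
    have hS : ∀ i, Group.IsSolvable (S i) := by
      intro i
      by_cases h : Group.IsSolvable (R i)
      · have e : S i = R i := dif_pos h
        rw [e]
        exact h
      · have e : S i = (g ⟨i, h⟩).ker.map (R i).subtype := dif_neg h
        rw [e]
        exact pkr_map _ _ (hg3 ⟨i, h⟩)
    have hmem : ∀ (x : f'.ker) (i : Fin n), f x i ∈ S i := by
      intro x i
      by_cases h : Group.IsSolvable (R i)
      · have e : S i = R i := dif_pos h
        rw [e]
        exact ⟨x, rfl⟩
      · obtain ⟨t, ht⟩ := ε.surjective ⟨i, h⟩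
        have hi : i = (ε t).1 := by rw [ht]
        subst hi
        have e : S (ε t).1 = (g (ε t)).ker.map (R (ε t).1).subtype := dif_neg h
        rw [e]
        exact ⟨(fi (ε t).1).rangeRestrict x, congrFun x.2 t, rfl⟩
    let G : f'.ker →* (∀ i, S i) :=
      { toFun := fun x i => ⟨f x i, hmem x i⟩
        map_one' := by
          funext i
          apply Subtype.ext
          simp
        map_mul' := by
          intro x y
          funext i
          apply Subtype.ext
          simp }
    have hsol : Group.IsSolvable (∀ i, S i) := pkr_pi (fun i => S i) hS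
    have hgk : Group.IsSolvable G.ker := by
      let ι : G.ker →* f.ker :=
        (f'.ker.subtype.comp G.ker.subtype).codRestrict f.ker (fun x => by
          rw [MonoidHom.mem_ker]
          funext i
          have h4 := congrFun (show G x = 1 from x.2) i
          exact congrArg Subtype.val h4)
      exact Group.isSolvable_of_isSolvable_injective (f := ι) (fun x y h => by
        apply Subtype.ext
        apply Subtype.ext
        exact congrArg (fun z : f.ker => (z : X)) h)
    exact Group.isSolvable_of_ker_le_range G.ker.subtype G (by rw [Subgroup.range_subtype])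
  · intro x hx
    rw [MonoidHom.mem_ker]
    funext t
    have hn : (sol X).Normal := normal_sSup _ fun N hN => hN.1
    obtain ⟨S, hS, -⟩ := hC.alm (A' (ε t)) (hg1 (ε t))
    have h3 := (h2 (A' (ε t)) S hS).1
    have h4 : (sol X).map (pr (ε t)) ≤ sol (A' (ε t)) :=
      (h1 (A' (ε t))).2.1 _ (hn.map _ (hpr (ε t))) (pkr_map _ _ (h1 X).1)
    rw [h3] at h4
    exact Subgroup.mem_bot.1 (h4 ⟨x, hx, rfl⟩)

end Pool.Agent.H94.FIB
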